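import Pool.Agent.X275.BN.Glue

/-!
# `i_bn(G) ≤ i_h(G)` for every graph (MP_2a7bed_co, Q1, full negative answer)

For every finite graph `G`, connected or not, the lower boundary independent broadcast number `i_bn(G)`
is at most the lower hearing independent broadcast number `i_h(G)`.

Idea: a maximal hearing independent broadcast `f` is dominating, and every broadcasting vertex `u` has
another broadcasting vertex `v` with `d(u,v) ≤ f u + f v`, unless `u` is the only broadcasting vertex of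
its component. From such an `f` one gets a maximal boundary independent broadcast of at most the same
cost by merging overlapping balls.
-/

open SimpleGraph Finset

namespace Pool.Agent.Results.MP_2a7bed_co.BoundaryLeHearing

open Pool.Agent.X275.BN

variable {V : Type*} [Fintype V]

/-- **MP_2a7bed_co, Q1 (full negative answer).** For every finite graph `G`: both numbers
`i_bn(G)` and `i_h(G)` are attained, and `i_bn(G) ≤ i_h(G)`. -/
theorem result (G : SimpleGraph V) :
    IsLeast {k | ∃ f : V → ℕ, MaxBnA G f ∧ ∑ v, f v = k} (ibnA G) ∧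
      IsLeast {k | ∃ f : V → ℕ, MaxHA G f ∧ ∑ v, f v = k} (ihA G) ∧ ibnA G ≤ ihA G := by
  classical
  have h1 : ∃ f : V → ℕ, MaxBnA G f ∧ ∑ v, f v = ibnA G := by
    obtain ⟨f, hf⟩ := exists_maxBnA G
    exact Nat.sInf_mem (s := {k | ∃ f : V → ℕ, MaxBnA G f ∧ ∑ v, f v = k}) ⟨_, f, hf, rfl⟩
  have h2 : ∃ f : V → ℕ, MaxHA G f ∧ ∑ v, f v = ihA G := by
    obtain ⟨f, hf⟩ := exists_maxHA G
    exact Nat.sInf_mem (s := {k | ∃ f : V → ℕ, MaxHA G f ∧ ∑ v, f v = k}) ⟨_, f, hf, rfl⟩
  refine ⟨⟨h1, fun k hk => Nat.sInf_le hk⟩, ⟨h2, fun k hk => Nat.sInf_le hk⟩, ?_⟩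
  obtain ⟨f, hf, hs⟩ := h2
  obtain ⟨g, hg, hgs⟩ := exists_maxBnA_le hf.dom hf.ovl
  rw [← hs]
  exact (Nat.sInf_le (s := {k | ∃ f : V → ℕ, MaxBnA G f ∧ ∑ v, f v = k}) ⟨g, hg, rfl⟩).trans hgs

end Pool.Agent.Results.MP_2a7bed_co.BoundaryLeHearing
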